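import Pool.Agent.V11196.WI.NotCI

/-!
# A weakly integrable 3-submanifold of `𝔼⁶` that is not a complete intersection

Let `L ⊂ 𝔼⁶` be the disjoint union of `S² × ℝ = {x₁² + x₂² + x₃² = 1, y₂ = y₃ = 0}` and the 3-plane
`{x = 0}`.  It is contained in a fibre of the submersion
`Φ = ((1 - ρ)(x₁ + ρ + ρ e^{y₁}), (1 - ρ) x₂ + ρ y₂, (1 - ρ) x₃ + ρ y₃)`, `ρ = x₁² + x₂² + x₃²`, and it
is not a complete intersection: a defining map would give a homotopy of maps `S² → ℝ³ ∖ 0` from a map
with a nonvanishing orthogonal field to the restriction of a linear isomorphism, contradicting the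
hairy ball theorem.
-/

namespace Pool.Agent.Results.MP_b1931f_gt.WeaklyIntegrableNotCI

open Pool.Agent.V11196.WI

theorem result : ∃ k m : ℕ, 0 < m ∧ k + m ≤ 2 * k ∧
    ∃ L : Set (EuclideanSpace ℝ (Fin (k + m))), IsProperSubmanifold k m L ∧
      IsWeaklyIntegrable k m L ∧ ¬ IsCompleteIntersection k m L :=
  ⟨3, 3, by norm_num, by norm_num, LL, isProperSubmanifold_LL, isWeaklyIntegrable_LL,
    not_completeIntersection⟩

end Pool.Agent.Results.MP_b1931f_gt.WeaklyIntegrableNotCI
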